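import Pool.Agent.W890.SF.Stm

/-! Project SAM: the one variable inequality `S_MONO`. -/

set_option autoImplicit false

noncomputable section

namespace Pool.Agent.W45.SAM

open Pool.Agent.W890.SF

theorem log_bound {t : ℝ} (h0 : 0 ≤ t) (h1 : t < 1) : Real.log (1 - t) ≤ -t - t ^ 2 / 2 := by
  have h := Real.hasSum_pow_div_log_of_abs_lt_one (x := t) (by rwa [abs_of_nonneg h0])
  have h2 := sum_le_hasSum (Finset.range 2) (fun n _ => by positivity) h
  norm_num [Finset.sum_range_succ] at h2
  linarith

/-- the auxiliary function -/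
def hh (x ρ v : ℝ) : ℝ := (v - ρ) / x * (Real.log (v - x) - Real.log v) + x / 4 * v

theorem hh_deriv {x ρ v : ℝ} (hv : 0 < v) (hvx : x < v) :
    HasDerivAt (hh x ρ) (1 / x * (Real.log (v - x) - Real.log v) +
      (v - ρ) / x * (1 / (v - x) - 1 / v) + x / 4) v := by
  unfold hh
  have h1 : HasDerivAt (fun v : ℝ => (v - ρ) / x) (1 / x) v :=
    ((hasDerivAt_id v).sub_const ρ).div_const x
  have h2 : HasDerivAt (fun v : ℝ => Real.log (v - x)) (1 / (v - x)) v :=
    ((hasDerivAt_id v).sub_const x).log (by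
      have : (id v - x : ℝ) = v - x := rfl
      rw [this]
      exact (sub_pos.mpr hvx).ne')
  have h3 : HasDerivAt (fun v : ℝ => Real.log v) (1 / v) v := by
    rw [one_div]
    exact Real.hasDerivAt_log hv.ne'
  have h4 : HasDerivAt (fun v : ℝ => x / 4 * v) (x / 4) v := by
    simpa using (hasDerivAt_id v).const_mul (x / 4)
  exact (h1.mul (h2.sub h3)).add h4

theorem deriv_nonpos {x ρ v : ℝ} (hx : 0 < x) (hv : x < v) (hv1 : v ≤ 1)
    (h : x ≤ ρ ∨ (8 * (x - ρ) ≤ x ∧ 2 * x ≤ v)) :
    1 / x * (Real.log (v - x) - Real.log v) +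
      (v - ρ) / x * (1 / (v - x) - 1 / v) + x / 4 ≤ 0 := by
  have hv0 : 0 < v := by linarith
  have hvx : 0 < v - x := by linarith
  have h1 : Real.log (v - x) - Real.log v ≤ -(x / v) - (x / v) ^ 2 / 2 := by
    rw [← Real.log_div hvx.ne' hv0.ne']
    have h2 : (v - x) / v = 1 - x / v := by field_simp
    rw [h2]
    exact log_bound (by positivity) (by rw [div_lt_one hv0]; exact hv)
  have h3 : 1 / x * (Real.log (v - x) - Real.log v) ≤ 1 / x * (-(x / v) - (x / v) ^ 2 / 2) :=
    mul_le_mul_of_nonneg_left h1 (by positivity)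
  have h4 : 1 / x * (-(x / v) - (x / v) ^ 2 / 2) + (v - ρ) / x * (1 / (v - x) - 1 / v) =
      -(x / (2 * v ^ 2)) + (x - ρ) / (v * (v - x)) := by
    field_simp
    ring
  have h5 : -(x / (2 * v ^ 2)) + (x - ρ) / (v * (v - x)) ≤ -(x / (4 * v ^ 2)) := by
    have h8 : x / (2 * v ^ 2) = 2 * (x / (4 * v ^ 2)) := by
      field_simp
      ring
    have h7 : 0 ≤ x / (4 * v ^ 2) := by positivity
    rcases le_or_gt x ρ with h | h'
    · have h6 : (x - ρ) / (v * (v - x)) ≤ 0 :=
        div_nonpos_of_nonpos_of_nonneg (by linarith) (by positivity)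
      linarith
    · rcases h with h | ⟨ha, hb⟩
      · exact absurd h (not_le.mpr h')
      · have h6 : (x - ρ) / (v * (v - x)) ≤ x / (4 * v ^ 2) := by
          rw [div_le_div_iff₀ (by positivity) (by positivity)]
          have h9 : v ≤ 2 * (v - x) := by linarith
          have h10 : 0 ≤ v * x := by positivity
          calc (x - ρ) * (4 * v ^ 2) = 8 * (x - ρ) * (v * v) / 2 := by ring
            _ ≤ x * (v * v) / 2 := by
                have := mul_le_mul_of_nonneg_right ha (mul_nonneg hv0.le hv0.le)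
                linarith
            _ = (v * x) * v / 2 := by ring
            _ ≤ (v * x) * (2 * (v - x)) / 2 := by
                have := mul_le_mul_of_nonneg_left h9 h10
                linarith
            _ = x * (v * (v - x)) := by ring
        linarith
  have h11 : x / 4 ≤ x / (4 * v ^ 2) := by
    rw [div_le_div_iff₀ (by norm_num) (by positivity)]
    have h12 : v ^ 2 ≤ 1 := pow_le_one₀ hv0.le hv1
    have := mul_le_mul_of_nonneg_left h12 hx.le
    linarith
  linarith

theorem mono : S_MONO := by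
  intro x ρ w hx hx1 hρ hρw hw1 h
  have hxw : x ≤ w := by
    rcases h with h | ⟨-, h⟩ <;> linarith
  rcases hxw.eq_or_lt with he | hlt
  · have hρx : ρ = x := by
      rcases h with h | ⟨-, h⟩
      · linarith
      · linarith
    subst he
    subst hρx
    rw [sub_self, zero_div, Real.rpow_zero]
    have h1 : Real.log (1 - ρ) ≤ -ρ := by
      have := Real.log_le_sub_one_of_pos (show (0 : ℝ) < 1 - ρ by linarith)
      linarith
    rw [Real.rpow_def_of_pos (by linarith)]
    have h2 : Real.log (1 - ρ) * ((1 - ρ) / ρ) ≤ -(1 - ρ) := by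
      have h3 : 0 ≤ (1 - ρ) / ρ := div_nonneg (by linarith) hρ.le
      calc Real.log (1 - ρ) * ((1 - ρ) / ρ) ≤ (-ρ) * ((1 - ρ) / ρ) :=
            mul_le_mul_of_nonneg_right h1 h3
        _ = -(1 - ρ) := by field_simp
    have h4 : 1 + ρ / 4 * (1 - ρ) ≤ Real.exp (1 - ρ) := by
      have h5 := Real.add_one_le_exp (1 - ρ)
      have h6 : ρ / 4 * (1 - ρ) ≤ 1 * (1 - ρ) :=
        mul_le_mul_of_nonneg_right (by linarith) (by linarith)
      linarith
    calc Real.exp (Real.log (1 - ρ) * ((1 - ρ) / ρ)) * (1 + ρ / 4 * (1 - ρ)) ≤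
          Real.exp (-(1 - ρ)) * Real.exp (1 - ρ) := by
          apply mul_le_mul (Real.exp_le_exp.mpr h2) h4 _ (Real.exp_pos _).le
          have : 0 ≤ ρ / 4 * (1 - ρ) := mul_nonneg (by linarith) (by linarith)
          linarith
      _ = 1 := by
          rw [← Real.exp_add]
          simp
  · have hw0 : 0 < w := by linarith
    have hanti : AntitoneOn (hh x ρ) (Set.Icc w 1) := by
      have hd : ∀ v ∈ Set.Icc w 1, HasDerivAt (hh x ρ) (1 / x * (Real.log (v - x) - Real.log v) +
          (v - ρ) / x * (1 / (v - x) - 1 / v) + x / 4) v := by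
        intro v hv
        exact hh_deriv (by linarith [hv.1]) (by linarith [hv.1])
      refine antitoneOn_of_deriv_nonpos (convex_Icc w 1)
        (fun v hv => (hd v hv).continuousAt.continuousWithinAt) ?_ ?_
      · intro v hv
        rw [interior_Icc] at hv
        exact (hd v ⟨hv.1.le, hv.2.le⟩).differentiableAt.differentiableWithinAt
      · intro v hv
        rw [interior_Icc] at hv
        rw [(hd v ⟨hv.1.le, hv.2.le⟩).deriv]
        refine deriv_nonpos hx (by linarith [hv.1]) hv.2.le ?_
        rcases h with h | ⟨h1, h2⟩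
        · exact Or.inl h
        · exact Or.inr ⟨h1, by linarith [hv.1]⟩
    have h1 := hanti ⟨le_rfl, hw1⟩ ⟨hw1, le_rfl⟩ hw1
    unfold hh at h1
    rw [Real.log_one, sub_zero, ← Real.log_div (sub_pos.mpr hlt).ne' hw0.ne'] at h1
    have h2 : (w - x) / w = 1 - x / w := by field_simp
    rw [h2] at h1
    have h3 : 0 < 1 - x / w := by
      rw [← h2]
      exact div_pos (by linarith) hw0
    rw [Real.rpow_def_of_pos (show (0 : ℝ) < 1 - x by linarith), Real.rpow_def_of_pos h3]
    have h4 : 1 + x / 4 * (1 - w) ≤ Real.exp (x / 4 * (1 - w)) := by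
      have := Real.add_one_le_exp (x / 4 * (1 - w))
      linarith
    calc Real.exp (Real.log (1 - x) * ((1 - ρ) / x)) * (1 + x / 4 * (1 - w)) ≤
          Real.exp (Real.log (1 - x) * ((1 - ρ) / x)) * Real.exp (x / 4 * (1 - w)) :=
          mul_le_mul_of_nonneg_left h4 (Real.exp_pos _).le
      _ = Real.exp (Real.log (1 - x) * ((1 - ρ) / x) + x / 4 * (1 - w)) := by
          rw [← Real.exp_add]
      _ ≤ Real.exp (Real.log (1 - x / w) * ((w - ρ) / x)) := by
          apply Real.exp_le_exp.mpr
          linarith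

end Pool.Agent.W45.SAM
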